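import Mathlib

set_option autoImplicit false

namespace Pool.Agent.H.MP_a22eb7_al

/-- The group `X` has a subgroup of finite index which is residually a finite `p`-group: each of its
elements different from `1` lies outside some normal subgroup of `p`-power index. -/
def VirtuallyResiduallyP (p : ℕ) (X : Type*) [Group X] : Prop :=
  ∃ H : Subgroup X, H.FiniteIndex ∧
    ∀ h : H, h ≠ 1 → ∃ Q : Subgroup H, Q.Normal ∧ (∃ a : ℕ, Q.index = p ^ a) ∧ h ∉ Q

/-- The group `G` is residually (locally (virtually (residually a finite `p`-group))): for each
`g ≠ 1` there is a normal subgroup `N` not containing `g` such that every finitely generated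
subgroup of `G/N` has a finite-index subgroup which is residually a finite `p`-group. -/
def ResLocVirtResP (p : ℕ) (G : Type*) [Group G] : Prop :=
  ∀ g : G, g ≠ 1 → ∃ (N : Subgroup G) (_ : N.Normal), g ∉ N ∧
    ∀ X : Subgroup (G ⧸ N), X.FG → VirtuallyResiduallyP p X

end Pool.Agent.H.MP_a22eb7_al
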