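import Mathlib

set_option autoImplicit false

namespace Pool.Agent.H.MP_a22eb7_al

open LinearMap

theorem isLocalRing_zmod (p N : ℕ) [Fact p.Prime] (hN : N ≠ 0) : IsLocalRing (ZMod (p ^ N)) := by
  have h1 : Nontrivial (ZMod (p ^ N)) :=
    ZMod.nontrivial_iff.2 (by
      have h2 := (Fact.out : p.Prime).one_lt
      exact (Nat.one_lt_pow hN h2).ne')
  exact IsLocalRing.of_surjective' (PadicInt.toZModPow N) (ZMod.ringHom_surjective _)

/-- Over a local ring the trace of an idempotent matrix is the rank of its image. -/
theorem trace_idem_local {R : Type*} [CommRing R] [IsLocalRing R] {s : Type*} [Fintype s]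
    [DecidableEq s] (P : Matrix s s R) (hP : P * P = P) :
    ∃ r : ℕ, r ≤ Fintype.card s ∧ P.trace = (r : R) ∧ (r = 0 → P = 0) := by
  classical
  let f : (s → R) →ₗ[R] (s → R) := P.mulVecLin
  have hf : IsIdempotentElem f := by
    change P.mulVecLin * P.mulVecLin = P.mulVecLin
    rw [Module.End.mul_eq_comp, ← Matrix.mulVecLin_mul, hP]
  have hpr : IsProj (range f) f := IsIdempotentElem.isProj_range f hf
  have hc : IsCompl (range f) (ker f) := hpr.isCompl
  have hfin1 : Module.Finite R (range f) := inferInstance
  have hproj1 : Module.Projective R (range f) :=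
    Module.Projective.of_split (range f).subtype hpr.codRestrict (by
      ext1 x
      exact hpr.codRestrict_apply_cod x)
  have hfree1 : Module.Free R (range f) := Module.free_of_flat_of_isLocalRing
  have hpr2 : IsProj (ker f) (1 - f) := by
    constructor
    · intro x
      rw [mem_ker, LinearMap.sub_apply, map_sub]
      change f x - (f * f) x = 0
      rw [hf.eq, sub_self]
    · intro x hx
      rw [mem_ker] at hx
      rw [LinearMap.sub_apply, hx, sub_zero]
      rfl
  have hfin2 : Module.Finite R (ker f) :=
    Module.Finite.of_surjective hpr2.codRestrict (fun x => ⟨x, hpr2.codRestrict_apply_cod x⟩)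
  have hproj2 : Module.Projective R (ker f) :=
    Module.Projective.of_split (ker f).subtype hpr2.codRestrict (by
      ext1 x
      exact hpr2.codRestrict_apply_cod x)
  have hfree2 : Module.Free R (ker f) := Module.free_of_flat_of_isLocalRing
  refine ⟨Module.finrank R (range f), ?_, ?_, ?_⟩
  · have h1 := Submodule.finrank_le (range f)
    rwa [Module.finrank_fintype_fun_eq_card] at h1
  · rw [← hpr.trace]
    exact (Matrix.trace_toLin'_eq P).symm
  · intro h0
    have h1 : Subsingleton (range f) := (Module.finrank_eq_zero_iff_of_free R (range f)).1 h0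
    have h2 : f = 0 := by
      refine LinearMap.ext fun x => ?_
      have h3 : (⟨f x, mem_range_self f x⟩ : range f) = 0 := Subsingleton.elim _ _
      exact congrArg Subtype.val h3
    apply Matrix.toLin'.injective
    rw [map_zero]
    exact h2

theorem idem_eq_zero_of_trace (p N : ℕ) [Fact p.Prime] (hN : N ≠ 0) {s : Type*} [Fintype s]
    [DecidableEq s] (P : Matrix s s (ZMod (p ^ N))) (hP : P * P = P) (ht : P.trace = 0)
    (hs : Fintype.card s < p ^ N) : P = 0 := by
  have := isLocalRing_zmod p N hN
  obtain ⟨r, hr1, hr2, hr3⟩ := trace_idem_local P hP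
  apply hr3
  rw [ht, eq_comm, ZMod.natCast_eq_zero_iff] at hr2
  exact Nat.eq_zero_of_dvd_of_lt hr2 (lt_of_le_of_lt hr1 hs)

end Pool.Agent.H.MP_a22eb7_al
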