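import Pool.Agent.H.MP_a22eb7_al.P.Nil
import Pool.Agent.H.MP_a22eb7_al.P.Rank

set_option autoImplicit false

namespace Pool.Agent.H.MP_a22eb7_al

open MonoidAlgebra

section Reg

variable {Λ : Type*} [CommRing Λ] {Γ : Type*} [Group Γ] [Fintype Γ] {κ : Type*} [Fintype κ]

/-- the regular representation of a matrix over the group ring of a finite group -/
def reg (E : Matrix κ κ (MonoidAlgebra Λ Γ)) : Matrix (κ × Γ) (κ × Γ) Λ :=
  fun p q => (E p.1 q.1).coeff (p.2⁻¹ * q.2)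

theorem reg_mul (E F : Matrix κ κ (MonoidAlgebra Λ Γ)) : reg (E * F) = reg E * reg F := by
  classical
  ext1 ⟨i, x⟩ ⟨j, y⟩
  rw [Matrix.mul_apply, Fintype.sum_prod_type]
  simp only [reg]
  rw [Matrix.mul_apply, coeff_sum, Finsupp.finsetSum_apply]
  refine Finset.sum_congr rfl fun k _ => ?_
  rw [coeff_mul_apply_left, Finsupp.sum_fintype _ _ (fun i => zero_mul _)]
  refine Fintype.sum_equiv (Equiv.mulLeft x) _ _ fun w => ?_
  simp only [Equiv.coe_mulLeft, mul_inv_rev, inv_mul_cancel_left, mul_assoc]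

theorem reg_trace (E : Matrix κ κ (MonoidAlgebra Λ Γ)) :
    (reg E).trace = (Fintype.card Γ : Λ) * ∑ i, (E i i).coeff 1 := by
  rw [Matrix.trace, Fintype.sum_prod_type, Finset.mul_sum]
  refine Finset.sum_congr rfl fun i _ => ?_
  simp [reg]

omit [Fintype Γ] [Fintype κ] in
theorem eq_zero_of_reg (E : Matrix κ κ (MonoidAlgebra Λ Γ)) (h : reg E = 0) : E = 0 := by
  ext i j x
  have h1 := congrFun (congrFun h (i, 1)) (j, x)
  simpa [reg] using h1

end Reg

/-- An idempotent matrix over `(ℤ/pⁿ)[Γ]` whose trace at the identity vanishes is zero if `n` is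
large with respect to the size of the matrix and to the prime-to-`p` part of the order of `Γ`. -/
theorem idem_group_eq_zero (p : ℕ) [Fact p.Prime] {Γ : Type*} [Group Γ] [Finite Γ] {κ : Type*}
    [Fintype κ] [DecidableEq κ] (n m a : ℕ) (hn : 1 ≤ n) (hΓ : Nat.card Γ = m * p ^ a)
    (hm : Fintype.card κ * m < p ^ n) (E : Matrix κ κ (MonoidAlgebra (ZMod (p ^ n)) Γ))
    (hE : E * E = E) (ht : ∑ i, (E i i).coeff 1 = 0) : E = 0 := by
  classical
  have := Fintype.ofFinite Γ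
  have hdvd : p ^ n ∣ p ^ (n + a) := pow_dvd_pow p (by omega)
  obtain ⟨F, hF, hFE⟩ := exists_isIdempotentElem_eq_of_ker_isNilpotent (red Γ κ hdvd)
    (fun x hx => red_nil p hn hdvd x hx) E (red_surjective hdvd E) hE
  have hz : ∃ c : ZMod (p ^ (n + a)),
      ∑ i, (F i i).coeff 1 = ((p ^ n : ℕ) : ZMod (p ^ (n + a))) * c := by
    have h1 : ZMod.castHom hdvd (ZMod (p ^ n)) (∑ i, (F i i).coeff 1) = 0 := by
      rw [map_sum, ← ht, ← hFE]
      exact Finset.sum_congr rfl fun i _ => (coeff_red hdvd F i i 1).symm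
    have h4 : (((∑ i, (F i i).coeff 1).val : ℕ) : ZMod (p ^ (n + a))) = ∑ i, (F i i).coeff 1 :=
      ZMod.natCast_zmod_val _
    rw [← h4, map_natCast, ZMod.natCast_eq_zero_iff] at h1
    obtain ⟨k, hk⟩ := h1
    exact ⟨k, by rw [← h4, hk, Nat.cast_mul]⟩
  obtain ⟨c, hc⟩ := hz
  have hr : reg F = 0 := by
    refine idem_eq_zero_of_trace p (n + a) (by omega) (reg F) ?_ ?_ ?_
    · rw [← reg_mul, hF.eq]
    · have h0 : ((p ^ n : ℕ) : ZMod (p ^ (n + a))) * ((p ^ a : ℕ) : ZMod (p ^ (n + a))) = 0 := by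
        rw [← Nat.cast_mul, ← pow_add, ZMod.natCast_self]
      rw [reg_trace, hc, ← Nat.card_eq_fintype_card, hΓ, Nat.cast_mul]
      calc (m : ZMod (p ^ (n + a))) * ((p ^ a : ℕ) : ZMod (p ^ (n + a))) *
            (((p ^ n : ℕ) : ZMod (p ^ (n + a))) * c)
          = (((p ^ n : ℕ) : ZMod (p ^ (n + a))) * ((p ^ a : ℕ) : ZMod (p ^ (n + a)))) *
            (m * c) := by ring
        _ = 0 := by rw [h0, zero_mul]
    · rw [Fintype.card_prod, ← Nat.card_eq_fintype_card (α := Γ), hΓ, ← mul_assoc, pow_add]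
      exact Nat.mul_lt_mul_of_pos_right hm (pow_pos (Fact.out : p.Prime).pos a)
  have hF0 : F = 0 := eq_zero_of_reg F hr
  rw [← hFE, hF0, map_zero]

end Pool.Agent.H.MP_a22eb7_al
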