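import Pool.Agent.H.MP_a22eb7_al.P.Push
import Pool.Agent.H.MP_a22eb7_al.Main

set_option autoImplicit false

namespace Pool.Agent.H.MP_a22eb7_al

open MonoidAlgebra

universe u v

section Factor

variable {M : Type*} [Monoid M]

/-- Global choice of the factorisations through an idempotent. -/
theorem exists_factor_global {e : M} (he : e * e = e) :
    ∃ u v : M → M, ∀ S : Finset M, (∀ m ∈ S, JLE m e) → LocalGroup.Factor e S u v := by
  classical
  have h : ∀ m : M, ∃ p : M × M, (JLE m e → m = p.1 * p.2) ∧ p.1 * e = p.1 ∧ e * p.2 = p.2 := by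
    intro m
    by_cases hm : JLE m e
    · obtain ⟨p, q, hpq⟩ := hm
      refine ⟨(p * e, e * q), fun _ => ?_, ?_, ?_⟩
      · simp only
        rw [mul_assoc p e, ← mul_assoc e e, he, ← mul_assoc]
        exact hpq
      · simp only
        rw [mul_assoc, he]
      · simp only
        rw [← mul_assoc, he]
    · exact ⟨(e, e), fun h => absurd h hm, he, he⟩
  choose f hf using h
  exact ⟨fun m => (f m).1, fun m => (f m).2, fun S hS => ⟨fun s hs => (hf s).1 (hS s hs),
    fun s => (hf s).2.1, fun s => (hf s).2.2⟩⟩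

end Factor

namespace LocalGroup

variable {M : Type*} [Monoid M] {e : M} {G : Type*} [Group G] (L : LocalGroup M e G)

theorem map_br {Λ Λ' : Type*} [CommRing Λ] [CommRing Λ'] (f : Λ →+* Λ') (w : M) :
    mapRingHom G f (L.br Λ w) = L.br Λ' w := by
  by_cases h : ∃ g, L.emb g = w
  · obtain ⟨g, rfl⟩ := h
    rw [br_emb, br_emb]
    simp
  · rw [L.br_eq_zero Λ h, L.br_eq_zero Λ' h, map_zero]

theorem map_bl {Λ Λ' : Type*} [CommRing Λ] [CommRing Λ'] (f : Λ →+* Λ') (u v : M → M) (s t : M)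
    (x : MonoidAlgebra Λ M) :
    mapRingHom G f (L.bl Λ u v s t x) = L.bl Λ' u v s t (mapRingHom M f x) := by
  refine MonoidAlgebra.induction_linear x ?_ ?_ ?_
  · simp
  · intro x y hx hy
    rw [map_add, map_add, hx, hy, map_add, map_add]
  · intro r a
    have h1 : mapRingHom M f (single r a) = single r (f a) := by simp
    rw [h1, bl_single, bl_single, ← L.map_br f]
    ext g
    simp

theorem red_cm {m n : ℕ} (h : m ∣ n) (u v : M → M) (S : Finset M) {ι : Type*} [Fintype ι]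
    [DecidableEq ι] (F : Matrix ι ι (MonoidAlgebra (ZMod n) M)) [DecidableEq S]
    (p q : S × ι) : red G (S × ι) h (L.cm (ZMod n) u v S F) p q =
      ∑ k, (red M ι h F p.2 k).coeff p.1.1 • L.bl (ZMod m) u v p.1.1 q.1.1 (red M ι h F k q.2) := by
  change mapRingHom G (ZMod.castHom h (ZMod m)) (L.cm (ZMod n) u v S F p q) = _
  rw [cm, map_sum]
  refine Finset.sum_congr rfl fun k _ => ?_
  have h2 : ∀ (a : ZMod n) (z : MonoidAlgebra (ZMod n) G),
      mapRingHom G (ZMod.castHom h (ZMod m)) (a • z) =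
        ZMod.castHom h (ZMod m) a • mapRingHom G (ZMod.castHom h (ZMod m)) z := by
    intro a z
    ext g
    rw [coeff_mapRingHom, coeff_smul_apply, coeff_smul_apply, coeff_mapRingHom, smul_eq_mul,
      map_mul, smul_eq_mul]
  rw [h2, map_bl, coeff_red]
  rfl

end LocalGroup

section Main

variable {p : ℕ} [Fact p.Prime] {M : Type u} [Monoid M] {ι : Type v} [Fintype ι] [DecidableEq ι]

/-- The support of an idempotent over `ℤ/pⁿ` is `J`-below the support of its reduction. -/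
theorem support_below (hM : Tame M) {n : ℕ} (h : p ^ 1 ∣ p ^ n)
    (F : Matrix ι ι (MonoidAlgebra (ZMod (p ^ n)) M)) (hF : F * F = F) (T T₁ : Finset M)
    (hT : ∀ m, m ∈ T ↔ ∃ i j, (F i j).coeff m ≠ 0)
    (hT₁ : ∀ i j m, (red M ι h F i j).coeff m ≠ 0 → m ∈ T₁) {m : M} (hm : m ∈ T) :
    ∃ s ∈ T₁, JLE m s := by
  classical
  obtain ⟨e, s₀, he, hs₀, hms₀, hes₀, hs₀e, hmax⟩ := exists_class hM T (support_factor F hF T hT) hm
  obtain ⟨G, _, ⟨L⟩⟩ := exists_localGroup hM he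
  obtain ⟨u, v, hfac⟩ := exists_factor_global he
  set S : Finset M := T.filter (fun m => JLE e m) with hSdef
  have hmemS : ∀ m, m ∈ S ↔ m ∈ T ∧ JLE e m := fun m => by rw [hSdef, Finset.mem_filter]
  have hf := hfac S (fun m hm => hmax m ((hmemS m).1 hm).1 ((hmemS m).1 hm).2)
  have hST : ∀ m ∈ T, JLE e m → m ∈ S := fun m hm h => (hmemS m).2 ⟨hm, h⟩
  have hTS : S ⊆ T := fun m hm => ((hmemS m).1 hm).1
  have hT' : ∀ i j m, (F i j).coeff m ≠ 0 → m ∈ T := fun i j m hm => (hT m).2 ⟨i, j, hm⟩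
  have hE : L.cm _ u v S F * L.cm _ u v S F = L.cm _ u v S F :=
    L.cm_mul_self _ hf hST hTS F hF hT'
  by_contra hcon
  push Not at hcon
  have hred : red G (S × ι) h (L.cm _ u v S F) = 0 := by
    ext1 a b
    rw [L.red_cm]
    refine Finset.sum_eq_zero fun k _ => ?_
    have h1 : (red M ι h F a.2 k).coeff a.1.1 = 0 := by
      by_contra h2
      refine hcon _ (hT₁ _ _ _ h2) (hms₀.trans (hs₀e.trans ((hmemS _).1 a.1.2).2))
    rw [h1, zero_smul]
  have hE0 := eq_zero_of_idem_nilKer (red G (S × ι) h) (fun x hx => red_nil p le_rfl h x hx) hE hred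
  obtain ⟨i, j, hij⟩ := (hT s₀).1 hs₀
  exact hij (L.coeff_eq_zero_of_cm _ hf hST F hF hT' hE0 hes₀ i j)

/-- Stable finiteness over `ℤ/p` for tame monoids with good subgroups. -/
theorem stablyFinite_prime (hM : Tame M)
    (hG : ∀ (G : Type u) [Group G] (f : G →ₙ* M), Function.Injective f → ResLocVirtResP p G)
    (A B : Matrix ι ι (MonoidAlgebra (ZMod (p ^ 1)) M)) (hAB : A * B = 1) : B * A = 1 := by
  classical
  by_contra hne
  obtain ⟨F, hFdef⟩ : ∃ F, F = 1 - B * A := ⟨_, rfl⟩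
  have hF : F * F = F := by rw [hFdef]; exact idem_one_sub hAB
  have hF0 : F ≠ 0 := by
    intro h0
    rw [hFdef] at h0
    exact hne (sub_eq_zero.1 h0).symm
  obtain ⟨T, hT⟩ := exists_support F
  obtain ⟨x₀, hx₀⟩ : ∃ x, x ∈ T := by
    by_contra hcon
    push Not at hcon
    apply hF0
    ext i j m
    by_contra hm
    exact hcon m ((hT m).2 ⟨i, j, hm⟩)
  obtain ⟨e, s₀, he, hs₀, -, hes₀, -, hmax⟩ := exists_class hM T (support_factor F hF T hT) hx₀
  obtain ⟨G, _, ⟨L⟩⟩ := exists_localGroup hM he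
  obtain ⟨u, v, hfac⟩ := exists_factor_global he
  have hgood : ResLocVirtResP p G := hG G ⟨L.emb, L.emb_mul⟩ L.emb_inj
  set S : Finset M := T.filter (fun m => JLE e m) with hSdef
  have hmemS : ∀ m, m ∈ S ↔ m ∈ T ∧ JLE e m := fun m => by rw [hSdef, Finset.mem_filter]
  have hf := hfac S (fun m hm => hmax m ((hmemS m).1 hm).1 ((hmemS m).1 hm).2)
  have hST : ∀ m ∈ T, JLE e m → m ∈ S := fun m hm h => (hmemS m).2 ⟨hm, h⟩
  have hTS : S ⊆ T := fun m hm => ((hmemS m).1 hm).1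
  have hT' : ∀ i j m, (F i j).coeff m ≠ 0 → m ∈ T := fun i j m hm => (hT m).2 ⟨i, j, hm⟩
  have hE : L.cm _ u v S F * L.cm _ u v S F = L.cm _ u v S F :=
    L.cm_mul_self _ hf hST hTS F hF hT'
  have hE0 : L.cm _ u v S F = 0 := by
    refine eq_zero_of_good hgood _ hE ?_
    intro n hn
    have hdvd : p ^ 1 ∣ p ^ n := pow_dvd_pow p hn
    obtain ⟨A', B', hA', hB', hAB'⟩ := exists_lift_inverse (red M ι hdvd)
      (fun x hx => red_nil p le_rfl hdvd x hx) (red_surjective hdvd) hAB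
    obtain ⟨F', hFdef'⟩ : ∃ F', F' = 1 - B' * A' := ⟨_, rfl⟩
    have hF' : F' * F' = F' := by rw [hFdef']; exact idem_one_sub hAB'
    have hFF' : red M ι hdvd F' = F := by
      rw [hFdef', map_sub, map_mul, map_one, hA', hB', hFdef]
    obtain ⟨T₂, hT₂⟩ := exists_support F'
    let T' : Finset M := T₂ ∪ T
    let S' : Finset M := T'.filter (fun m => JLE e m)
    have hmemS' : ∀ m, m ∈ S' ↔ m ∈ T' ∧ JLE e m := fun m => by
      simp only [S', Finset.mem_filter]
    have hT'T : T ⊆ T' := Finset.subset_union_right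
    have hSS' : ∀ m, m ∈ S → m ∈ S' := fun m hm =>
      (hmemS' m).2 ⟨hT'T ((hmemS m).1 hm).1, ((hmemS m).1 hm).2⟩
    have hle : ∀ m ∈ S', JLE m e := by
      intro m hm
      obtain ⟨h1, h2⟩ := (hmemS' m).1 hm
      rcases Finset.mem_union.1 h1 with h3 | h3
      · obtain ⟨s, hs, hms⟩ := support_below hM hdvd F' hF' T₂ T hT₂
          (fun i j m hm => hT' i j m (by rwa [hFF'] at hm)) h3
        exact hms.trans (hmax s hs (h2.trans hms))
      · exact hmax m h3 h2
    have hf' := hfac S' hle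
    have hST' : ∀ m ∈ T', JLE e m → m ∈ S' := fun m hm h => (hmemS' m).2 ⟨hm, h⟩
    have hTS' : S' ⊆ T' := fun m hm => ((hmemS' m).1 hm).1
    have hT₂' : ∀ i j m, (F' i j).coeff m ≠ 0 → m ∈ T' := fun i j m hm =>
      Finset.mem_union_left _ ((hT₂ m).2 ⟨i, j, hm⟩)
    refine ⟨S' × ι, inferInstance, inferInstance, fun a => (⟨a.1.1, hSS' _ a.1.2⟩, a.2),
      L.cm _ u v S' F', ?_, L.cm_mul_self _ hf' hST' hTS' F' hF' hT₂', ?_, ?_, ?_⟩
    · rintro ⟨⟨a, ha⟩, i⟩ ⟨⟨b, hb⟩, j⟩ hab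
      simp only [Prod.mk.injEq, Subtype.mk.injEq] at hab ⊢
      exact hab
    · intro N hN
      have h1 := L.trace_cm (ZMod (p ^ n)) hf' hST' hTS' (N := (N : Set G))
        (fun g h hgh => hN.mem_comm hgh) F' hT₂'
      rw [hF', hFdef', trace_one_sub hAB' _ (L.SE_comm)] at h1
      rw [← hFdef'] at h1
      exact h1
    · intro a b
      rw [L.red_cm, hFF']
      rfl
    · intro c b hc
      rw [L.red_cm, hFF']
      refine Finset.sum_eq_zero fun k _ => ?_
      have h1 : (F c.2 k).coeff c.1.1 = 0 := by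
        by_contra h2
        apply hc
        exact ⟨(⟨c.1.1, (hmemS _).2 ⟨hT' _ _ _ h2, ((hmemS' _).1 c.1.2).2⟩⟩, c.2), rfl⟩
      rw [h1, zero_smul]
  obtain ⟨i, j, hij⟩ := (hT s₀).1 hs₀
  exact hij (L.coeff_eq_zero_of_cm _ hf hST F hF hT' hE0 hes₀ i j)

end Main

end Pool.Agent.H.MP_a22eb7_al
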