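import Mathlib

set_option autoImplicit false

namespace Pool.Agent.H.MP_a22eb7_al

open MonoidAlgebra

section Ring

variable {R S : Type*} [Ring R] [Ring S] (π : R →+* S)

/-- An element which becomes invertible modulo a nil kernel is invertible. -/
theorem isUnit_of_nilKer (hπ : ∀ x, π x = 0 → IsNilpotent x) {x y : R} (h1 : π (x * y) = 1)
    (h2 : π (y * x) = 1) : IsUnit x := by
  have key : ∀ z : R, π z = 1 → IsUnit z := by
    intro z hz
    have h3 : IsNilpotent (z - 1) := hπ _ (by rw [map_sub, hz, map_one, sub_self])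
    have h4 := h3.isUnit_one_add
    rwa [add_sub_cancel] at h4
  obtain ⟨u, hu⟩ := key _ h1
  obtain ⟨v, hv⟩ := key _ h2
  refine isUnit_iff_exists.2 ⟨y * ↑u⁻¹, ?_, ?_⟩
  · rw [← mul_assoc, ← hu, Units.mul_inv]
  · have h5 : (↑v⁻¹ * y) * x = 1 := by rw [mul_assoc, ← hv, Units.inv_mul]
    have h6 : x * (y * ↑u⁻¹) = 1 := by rw [← mul_assoc, ← hu, Units.mul_inv]
    rw [← left_inv_eq_right_inv h5 h6, h5]

/-- Equality of traces of idempotents which are equivalent modulo a nil kernel. -/
theorem trace_eq_of_nilKer (hπ : ∀ x, π x = 0 → IsNilpotent x) {T : Type*} (τ : R → T)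
    (hτ : ∀ x y, τ (x * y) = τ (y * x)) {e f : R} (he : e * e = e) (hf : f * f = f)
    (h1 : π e * π f = π f) (h2 : π f * π e = π e) : τ e = τ f := by
  have he' : π e * π e = π e := by rw [← map_mul, he]
  have hf' : π f * π f = π f := by rw [← map_mul, hf]
  have hW : IsUnit (e * f + (1 - e) * (1 - f)) := by
    refine isUnit_of_nilKer π hπ (y := 1 + e - f) ?_ ?_
    · simp only [map_mul, map_add, map_sub, map_one, h1, sub_mul, mul_sub, add_mul, mul_add,
        one_mul, mul_one, h2, he', hf']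
      abel
    · simp only [map_mul, map_add, map_sub, map_one, h1, sub_mul, mul_sub, add_mul, mul_add,
        one_mul, mul_one, h2, he', hf']
      abel
  obtain ⟨w, hw⟩ := hW
  have h3 : e * ↑w = e * f := by
    have h5 : e * (1 - e) = 0 := by rw [mul_sub, mul_one, he, sub_self]
    rw [hw, mul_add, ← mul_assoc, he, ← mul_assoc, h5, zero_mul, add_zero]
  have h4 : ↑w * f = e * f := by
    have h5 : (1 - f) * f = 0 := by rw [sub_mul, one_mul, hf, sub_self]
    rw [hw, add_mul, mul_assoc, hf, mul_assoc, h5, mul_zero, add_zero]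
  calc τ e = τ ((e * ↑w) * ↑w⁻¹) := by rw [mul_assoc, Units.mul_inv, mul_one]
    _ = τ (↑w⁻¹ * (↑w * f)) := by rw [hτ, h3, h4]
    _ = τ f := by rw [← mul_assoc, Units.inv_mul, one_mul]

/-- An idempotent in a nil kernel is zero. -/
theorem eq_zero_of_idem_nilKer (hπ : ∀ x, π x = 0 → IsNilpotent x) {e : R} (he : e * e = e)
    (h : π e = 0) : e = 0 := by
  obtain ⟨n, hn⟩ := hπ e h
  have h1 : ∀ k : ℕ, e ^ (k + 1) = e := by
    intro k
    induction k with
    | zero => rw [zero_add, pow_one]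
    | succ k ih => rw [pow_succ, ih, he]
  rcases n with - | n
  · rw [pow_zero] at hn
    calc e = 1 * e := (one_mul e).symm
      _ = 0 := by rw [hn, zero_mul]
  · rw [← h1 n, hn]

/-- Lifting a one-sided inverse modulo a nil kernel. -/
theorem exists_lift_inverse (hπ : ∀ x, π x = 0 → IsNilpotent x) (hs : Function.Surjective π)
    {a b : S} (hab : a * b = 1) : ∃ x y : R, π x = a ∧ π y = b ∧ x * y = 1 := by
  obtain ⟨x, hx⟩ := hs a
  obtain ⟨y, hy⟩ := hs b
  have h1 : π (x * y) = 1 := by rw [map_mul, hx, hy, hab]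
  have h3 : IsNilpotent (x * y - 1) := hπ _ (by rw [map_sub, h1, map_one, sub_self])
  have h4 := h3.isUnit_one_add
  rw [add_sub_cancel] at h4
  obtain ⟨u, hu⟩ := h4
  refine ⟨x, y * ↑u⁻¹, hx, ?_, ?_⟩
  · have h5 : π (↑u⁻¹ : R) = 1 := by
      have h6 : π (↑u⁻¹ : R) * π (↑u : R) = 1 := by rw [← map_mul, Units.inv_mul, map_one]
      rw [hu, h1, mul_one] at h6
      exact h6
    rw [map_mul, hy, h5, mul_one]
  · rw [← mul_assoc, ← hu, Units.mul_inv]

end Ring

section ZMod

variable (p : ℕ) [Fact p.Prime] {M : Type*} [Monoid M] {ι : Type*} [Fintype ι] [DecidableEq ι]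

/-- reduction of the coefficients of a matrix over a monoid algebra -/
noncomputable def red (M : Type*) [Monoid M] (ι : Type*) [Fintype ι] [DecidableEq ι] {m n : ℕ}
    (h : m ∣ n) : Matrix ι ι (MonoidAlgebra (ZMod n) M) →+* Matrix ι ι (MonoidAlgebra (ZMod m) M) :=
  (mapRingHom M (ZMod.castHom h (ZMod m))).mapMatrix

omit [Fact p.Prime] in
theorem coeff_red {m n : ℕ} (h : m ∣ n) (A : Matrix ι ι (MonoidAlgebra (ZMod n) M)) (i j : ι)
    (x : M) : (red M ι h A i j).coeff x = ZMod.castHom h (ZMod m) ((A i j).coeff x) := by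
  rw [red, RingHom.mapMatrix_apply, Matrix.map_apply, coeff_mapRingHom]

theorem mapRingHom_surjective' {R S : Type*} [Ring R] [Ring S] (f : R →+* S)
    (hf : Function.Surjective f) : Function.Surjective (mapRingHom M f) := by
  intro z
  refine MonoidAlgebra.induction_linear z ⟨0, map_zero _⟩ ?_ ?_
  · rintro x y ⟨x', rfl⟩ ⟨y', rfl⟩
    exact ⟨x' + y', map_add _ _ _⟩
  · intro m a
    obtain ⟨b, rfl⟩ := hf a
    exact ⟨single m b, by simp⟩

omit [Fact p.Prime] in
theorem red_surjective {m n : ℕ} (h : m ∣ n) : Function.Surjective (red M ι h) := by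
  intro A
  have h1 : ∀ i j, ∃ z, mapRingHom M (ZMod.castHom h (ZMod m)) z = A i j := fun i j =>
    mapRingHom_surjective' _ (ZMod.castHom_surjective h) (A i j)
  choose B hB using h1
  refine ⟨Matrix.of B, ?_⟩
  ext1 i j
  exact hB i j

/-- the kernel of the reduction is nil -/
theorem red_nil {m n : ℕ} (hm : 1 ≤ m) (h : p ^ m ∣ p ^ n)
    (x : Matrix ι ι (MonoidAlgebra (ZMod (p ^ n)) M)) (hx : red M ι h x = 0) :
    IsNilpotent x := by
  classical
  have h1 : ∀ i j, ∃ z : MonoidAlgebra (ZMod (p ^ n)) M, x i j = (p : ZMod (p ^ n)) • z := by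
    intro i j
    have h2 : ∀ g, ∃ c : ZMod (p ^ n), (x i j).coeff g = (p : ZMod (p ^ n)) * c := by
      intro g
      have h3 : ZMod.castHom h (ZMod (p ^ m)) ((x i j).coeff g) = 0 := by
        rw [← coeff_red, hx]
        simp
      have h4 : (((x i j).coeff g).val : ZMod (p ^ n)) = (x i j).coeff g :=
        ZMod.natCast_zmod_val _
      rw [← h4, map_natCast, ZMod.natCast_eq_zero_iff] at h3
      obtain ⟨k, hk⟩ := (dvd_pow_self p (by omega : m ≠ 0)).trans h3
      exact ⟨k, by rw [← h4, hk, Nat.cast_mul]⟩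
    choose c hc using h2
    refine ⟨∑ g ∈ (x i j).coeff.support, single g (c g), ?_⟩
    ext g
    rw [coeff_smul_apply, coeff_sum, Finsupp.finsetSum_apply]
    simp only [coeff_single, Finsupp.single_apply]
    rw [Finset.sum_ite_eq']
    split_ifs with h5
    · exact hc g
    · rw [smul_zero]
      exact Finsupp.notMem_support_iff.1 h5
  choose y hy using h1
  have h2 : x = (p : ZMod (p ^ n)) • Matrix.of y := by
    ext1 i j
    exact hy i j
  refine ⟨n, ?_⟩
  rw [h2, smul_pow, ← Nat.cast_pow, ZMod.natCast_self, zero_smul]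

end ZMod

end Pool.Agent.H.MP_a22eb7_al
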