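import Pool.Agent.H.MP_a22eb7_al.P.Nil
import Pool.Agent.H.MP_a22eb7_al.Matr

set_option autoImplicit false

namespace Pool.Agent.H.MP_a22eb7_al

open MonoidAlgebra

section Psh

variable {M N : Type*} [Monoid M] [Monoid N] {ι : Type*} [Fintype ι] [DecidableEq ι]

/-- push forward of a matrix over a monoid algebra along a homomorphism -/
noncomputable def psh (Λ : Type*) [CommRing Λ] (ι : Type*) [Fintype ι] [DecidableEq ι]
    (f : M →* N) : Matrix ι ι (MonoidAlgebra Λ M) →+* Matrix ι ι (MonoidAlgebra Λ N) :=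
  (mapDomainRingHom Λ f).mapMatrix

theorem psh_apply (Λ : Type*) [CommRing Λ] (f : M →* N) (A : Matrix ι ι (MonoidAlgebra Λ M))
    (i j : ι) : psh Λ ι f A i j = mapDomainRingHom Λ f (A i j) := rfl

theorem coeff_mapDomainRingHom {Λ : Type*} [CommRing Λ] (f : M →* N) (z : MonoidAlgebra Λ M)
    (w : M) (h : ∀ x, z.coeff x ≠ 0 → f x = f w → x = w) :
    (mapDomainRingHom Λ f z).coeff (f w) = z.coeff w := by
  classical
  have hz := eq_sum_single z z.coeff.support (fun m hm => Finsupp.mem_support_iff.2 hm)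
  conv_lhs => rw [hz, map_sum, coeff_sum, Finsupp.finsetSum_apply]
  simp only [mapDomainRingHom_apply, mapDomain_single, coeff_single, Finsupp.single_apply]
  by_cases hw : z.coeff w = 0
  · rw [hw]
    refine Finset.sum_eq_zero fun x hx => ?_
    rw [if_neg]
    intro h1
    have h2 := Finsupp.mem_support_iff.1 hx
    rw [h x h2 h1] at h2
    exact h2 hw
  · rw [Finset.sum_eq_single w]
    · rw [if_pos rfl]
    · intro x hx hxw
      rw [if_neg]
      intro h1
      exact hxw (h x (Finsupp.mem_support_iff.1 hx) h1)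
    · intro h1
      exact absurd (Finsupp.mem_support_iff.2 hw) h1

theorem psh_injective (Λ : Type*) [CommRing Λ] (f : M →* N) (hf : Function.Injective f) :
    Function.Injective (psh Λ ι f) := by
  intro A B hAB
  ext i j x
  have h1 := congrFun (congrFun hAB i) j
  rw [psh_apply, psh_apply] at h1
  rw [← coeff_mapDomainRingHom f (A i j) x (fun y _ hy => hf hy), h1,
    coeff_mapDomainRingHom f (B i j) x (fun y _ hy => hf hy)]

theorem mapRingHom_mapDomain {Λ Λ' : Type*} [CommRing Λ] [CommRing Λ'] (g : Λ →+* Λ')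
    (f : M →* N) (z : MonoidAlgebra Λ M) :
    mapRingHom N g (mapDomainRingHom Λ f z) = mapDomainRingHom Λ' f (mapRingHom M g z) := by
  refine MonoidAlgebra.induction_linear z ?_ ?_ ?_
  · simp
  · intro x y hx hy
    rw [map_add, map_add, hx, hy, map_add, map_add]
  · intro m a
    simp

theorem red_psh {m n : ℕ} (h : m ∣ n) (f : M →* N) (A : Matrix ι ι (MonoidAlgebra (ZMod n) M)) :
    red N ι h (psh _ ι f A) = psh _ ι f (red M ι h A) := by
  ext1 i j
  exact mapRingHom_mapDomain _ f (A i j)

theorem ind_mapDomain {Λ : Type*} [CommRing Λ] (f : M →* N) (P : N → Prop)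
    (z : MonoidAlgebra Λ M) :
    ind Λ P (mapDomainRingHom Λ f z) = ind Λ (fun x => P (f x)) z := by
  classical
  refine MonoidAlgebra.induction_linear z ?_ ?_ ?_
  · simp
  · intro x y hx hy
    rw [map_add, map_add, hx, hy, map_add]
  · intro m a
    rw [mapDomainRingHom_apply, mapDomain_single, ind_single, ind_single]

theorem ind_eq_one {Λ : Type*} [CommRing Λ] (z : MonoidAlgebra Λ M) :
    ind Λ (fun x => x = 1) z = z.coeff 1 := by
  classical
  refine MonoidAlgebra.induction_linear z ?_ ?_ ?_
  · simp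
  · intro x y hx hy
    rw [map_add, hx, hy, coeff_add, Finsupp.add_apply]
  · intro m a
    rw [ind_single, coeff_single, Finsupp.single_apply]

omit [DecidableEq ι] in
/-- commutation of the trace for rectangular matrices -/
theorem ind_trace_mul_comm' (Λ : Type*) [CommRing Λ] (P : M → Prop)
    (hP : ∀ x y, P (x * y) ↔ P (y * x)) {κ : Type*} [Fintype κ]
    (A : Matrix ι κ (MonoidAlgebra Λ M)) (B : Matrix κ ι (MonoidAlgebra Λ M)) :
    ∑ i, ind Λ P ((A * B) i i) = ∑ i, ind Λ P ((B * A) i i) := by
  simp only [Matrix.mul_apply, map_sum]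
  rw [Finset.sum_comm]
  refine Finset.sum_congr rfl fun i _ => Finset.sum_congr rfl fun j _ => ?_
  exact ind_mul_comm Λ P hP _ _

end Psh

end Pool.Agent.H.MP_a22eb7_al
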