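import Pool.Agent.H.MP_a22eb7_al.P.Defs

set_option autoImplicit false

namespace Pool.Agent.H.MP_a22eb7_al

section

variable {p : ℕ} [Fact p.Prime]

/-- the uniform version -/
theorem VirtuallyResiduallyP.uniform {X : Type*} [Group X] (hX : VirtuallyResiduallyP p X) :
    ∃ m : ℕ, ∀ Y : Finset X, 1 ∉ Y → ∃ (Q : Subgroup X) (_ : Q.Normal), (∀ y ∈ Y, y ∉ Q) ∧
      Q.FiniteIndex ∧ ∃ a : ℕ, Q.index = m * p ^ a := by
  classical
  obtain ⟨H, hH, hres⟩ := hX
  refine ⟨H.normalCore.index, ?_⟩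
  -- the key property
  have key : ∀ Y : Finset X, 1 ∉ Y → ∃ (Q : Subgroup X) (_ : Q.Normal), (∀ y ∈ Y, y ∉ Q) ∧
      Q.FiniteIndex ∧ Q ≤ H.normalCore ∧ ∃ A : ℕ, ∀ h ∈ H.normalCore, h ^ p ^ A ∈ Q := by
    intro Y
    induction Y using Finset.induction_on with
    | empty =>
      intro _
      exact ⟨H.normalCore, inferInstance, by simp, inferInstance, le_rfl, 0, by simp⟩
    | insert y Y hy ih =>
      intro h1
      rw [Finset.mem_insert, not_or] at h1
      obtain ⟨Q, hQn, hQY, hQf, hQH, A, hA⟩ := ih h1.2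
      by_cases hyH : y ∈ H.normalCore
      · have hyH' : y ∈ H := H.normalCore_le hyH
        obtain ⟨R, hRn, ⟨a, ha⟩, hyR⟩ := hres ⟨y, hyH'⟩ (by
          intro h2
          exact h1.1 (congrArg Subtype.val h2).symm)
        have hp : p ^ a ≠ 0 := pow_ne_zero _ (Fact.out : p.Prime).ne_zero
        have hRf : R.FiniteIndex := ⟨by rw [ha]; exact hp⟩
        have hR' : (R.map H.subtype).FiniteIndex := by
          constructor
          rw [Subgroup.index_map_subtype]
          exact mul_ne_zero hRf.index_ne_zero hH.index_ne_zero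
        refine ⟨Q ⊓ (R.map H.subtype).normalCore, inferInstance, ?_, inferInstance,
          inf_le_left.trans hQH, A + a, ?_⟩
        · intro z hz hzQ
          rw [Finset.mem_insert] at hz
          rcases hz with rfl | hz
          · have h3 := (R.map H.subtype).normalCore_le hzQ.2
            rw [Subgroup.mem_map] at h3
            obtain ⟨r, hr, hrz⟩ := h3
            exact hyR (by
              have h4 : r = ⟨z, hyH'⟩ := Subtype.ext hrz
              rwa [← h4])
          · exact hQY z hz hzQ.1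
        · intro h hh
          refine ⟨?_, ?_⟩
          · rw [pow_add, pow_mul]
            exact Q.pow_mem (hA h hh) _
          · change ∀ b : X, b * h ^ p ^ (A + a) * b⁻¹ ∈ R.map H.subtype
            intro b
            have h5 : b * h * b⁻¹ ∈ H := H.normalCore_le (H.normalCore_normal.conj_mem h hh b)
            have h6 : (⟨b * h * b⁻¹, h5⟩ : H) ^ p ^ a ∈ R := by
              rw [← ha]
              exact R.pow_index_mem _
            have h7 : b * h ^ p ^ (A + a) * b⁻¹ = ((b * h * b⁻¹) ^ p ^ a) ^ p ^ A := by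
              rw [← pow_mul, ← pow_add, add_comm a A, conj_pow]
            rw [h7]
            apply Subgroup.pow_mem
            exact ⟨_, h6, rfl⟩
      · refine ⟨Q, hQn, ?_, hQf, hQH, A, hA⟩
        intro z hz
        rw [Finset.mem_insert] at hz
        rcases hz with rfl | hz
        · exact fun h => hyH (hQH h)
        · exact hQY z hz
  intro Y hY
  obtain ⟨Q, hQn, hQY, hQf, hQH, A, hA⟩ := key Y hY
  refine ⟨Q, hQn, hQY, hQf, ?_⟩
  have h1 : IsPGroup p (H.normalCore ⧸ Q.subgroupOf H.normalCore) := by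
    intro x
    induction x using QuotientGroup.induction_on with
    | H x =>
      refine ⟨A, ?_⟩
      rw [← QuotientGroup.mk_pow, QuotientGroup.eq_one_iff, Subgroup.mem_subgroupOf]
      exact hA x.1 x.2
  have h2 : Finite (H.normalCore ⧸ Q.subgroupOf H.normalCore) := inferInstance
  obtain ⟨a, ha⟩ := IsPGroup.iff_card.1 h1
  refine ⟨a, ?_⟩
  rw [← Subgroup.relIndex_mul_index hQH, mul_comm]
  congr 1

omit [Fact p.Prime] in
theorem comap_fin {X Y : Type*} [Group X] [Group Y] (f : X →* Y) (K : Subgroup Y)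
    (hK : K.FiniteIndex) : (K.comap f).FiniteIndex := by
  constructor
  rw [Subgroup.index_comap]
  exact (inferInstance : (K.subgroupOf f.range).FiniteIndex).index_ne_zero

theorem comap_sep {Y Z : Type*} [Group Y] [Group Z] (f : Y →* Z) (y : Y)
    (h : ∃ Q : Subgroup Z, Q.Normal ∧ (∃ a : ℕ, Q.index = p ^ a) ∧ f y ∉ Q) :
    ∃ Q : Subgroup Y, Q.Normal ∧ (∃ a : ℕ, Q.index = p ^ a) ∧ y ∉ Q := by
  obtain ⟨Q, hQ, ⟨a, ha⟩, hy⟩ := h
  refine ⟨Q.comap f, inferInstance, ?_, hy⟩
  have h1 : (Q.comap f).index ∣ p ^ a := by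
    rw [Subgroup.index_comap, ← ha]
    exact Subgroup.relIndex_dvd_index_of_normal Q f.range
  obtain ⟨b, -, hb⟩ := (Nat.dvd_prime_pow Fact.out).1 h1
  exact ⟨b, hb⟩

theorem VirtuallyResiduallyP.prod {X X₁ X₂ : Type*} [Group X] [Group X₁] [Group X₂]
    (f₁ : X →* X₁) (f₂ : X →* X₂) (hinj : ∀ x, f₁ x = 1 → f₂ x = 1 → x = 1)
    (h₁ : VirtuallyResiduallyP p X₁) (h₂ : VirtuallyResiduallyP p X₂) :
    VirtuallyResiduallyP p X := by
  obtain ⟨H₁, hf₁, hr₁⟩ := h₁
  obtain ⟨H₂, hf₂, hr₂⟩ := h₂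
  have i1 := comap_fin f₁ H₁ hf₁
  have i2 := comap_fin f₂ H₂ hf₂
  refine ⟨H₁.comap f₁ ⊓ H₂.comap f₂, inferInstance, ?_⟩
  intro h hh
  let g₁ : ↥(H₁.comap f₁ ⊓ H₂.comap f₂) →* H₁ :=
    (f₁.comp (Subgroup.subtype _)).codRestrict H₁ (fun x => x.2.1)
  let g₂ : ↥(H₁.comap f₁ ⊓ H₂.comap f₂) →* H₂ :=
    (f₂.comp (Subgroup.subtype _)).codRestrict H₂ (fun x => x.2.2)
  by_cases h1 : g₁ h = 1
  · have h2 : g₂ h ≠ 1 := by
      intro h2
      apply hh
      apply Subtype.ext
      exact hinj h.1 (congrArg Subtype.val h1) (congrArg Subtype.val h2)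
    exact comap_sep g₂ h (hr₂ _ h2)
  · exact comap_sep g₁ h (hr₁ _ h1)

theorem fg_map {X Y : Type*} [Group X] [Group Y] (f : X →* Y) {H : Subgroup X} (hH : H.FG) :
    (H.map f).FG := by
  classical
  obtain ⟨S, hS⟩ := hH
  refine ⟨S.image f, ?_⟩
  rw [Finset.coe_image, ← MonoidHom.map_closure, hS]

/-- A finite set of nontrivial elements of a good group is avoided by a good normal subgroup. -/
theorem ResLocVirtResP.finset {G : Type*} [Group G] (hG : ResLocVirtResP p G) (Y : Finset G) (hY : 1 ∉ Y) :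
    ∃ (N : Subgroup G) (_ : N.Normal), (∀ y ∈ Y, y ∉ N) ∧
      ∀ X : Subgroup (G ⧸ N), X.FG → VirtuallyResiduallyP p X := by
  classical
  induction Y using Finset.induction_on with
  | empty =>
    refine ⟨⊤, inferInstance, by simp, fun X _ => ⟨⊤, inferInstance, ?_⟩⟩
    intro h hh
    exfalso
    apply hh
    apply Subtype.ext
    apply Subtype.ext
    have : Subsingleton (G ⧸ (⊤ : Subgroup G)) := QuotientGroup.subsingleton_quotient_top
    exact Subsingleton.elim _ _
  | insert y Y hy ih =>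
    rw [Finset.mem_insert, not_or] at hY
    obtain ⟨N₁, hN₁, hyN₁, hX₁⟩ := hG y (fun h => hY.1 h.symm)
    obtain ⟨N₂, hN₂, hyN₂, hX₂⟩ := ih hY.2
    refine ⟨N₁ ⊓ N₂, inferInstance, ?_, ?_⟩
    · intro z hz hzN
      rw [Finset.mem_insert] at hz
      rcases hz with rfl | hz
      · exact hyN₁ hzN.1
      · exact hyN₂ z hz hzN.2
    · intro X hX
      let φ₁ : G ⧸ (N₁ ⊓ N₂) →* G ⧸ N₁ := QuotientGroup.map _ _ (MonoidHom.id G) (fun x hx => hx.1)
      let φ₂ : G ⧸ (N₁ ⊓ N₂) →* G ⧸ N₂ := QuotientGroup.map _ _ (MonoidHom.id G) (fun x hx => hx.2)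
      refine VirtuallyResiduallyP.prod (φ₁.subgroupMap X) (φ₂.subgroupMap X) ?_
        (hX₁ _ (fg_map φ₁ hX)) (hX₂ _ (fg_map φ₂ hX))
      intro x h1 h2
      have h1' : φ₁ x.1 = 1 := congrArg Subtype.val h1
      have h2' : φ₂ x.1 = 1 := congrArg Subtype.val h2
      apply Subtype.ext
      obtain ⟨x, hx⟩ := x
      simp only at h1' h2' ⊢
      induction x using QuotientGroup.induction_on with
      | H g =>
        have a1 : g ∈ N₁ := (QuotientGroup.eq_one_iff g).1 h1'
        have a2 : g ∈ N₂ := (QuotientGroup.eq_one_iff g).1 h2'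
        exact (QuotientGroup.eq_one_iff g).2 ⟨a1, a2⟩

end

end Pool.Agent.H.MP_a22eb7_al
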