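import Pool.Agent.H.MP_a22eb7_al.P.Psh
import Pool.Agent.H.MP_a22eb7_al.P.Fin
import Pool.Agent.H.MP_a22eb7_al.P.Resid

set_option autoImplicit false

namespace Pool.Agent.H.MP_a22eb7_al

open MonoidAlgebra

universe u v

section Separate

variable {G : Type*} [Group G]

/-- quotients of a finite set of elements -/
def quots [DecidableEq G] (W : Finset G) : Finset G :=
  ((W ×ˢ W).image fun w => w.1⁻¹ * w.2).erase 1

theorem one_notMem_quots [DecidableEq G] (W : Finset G) : (1 : G) ∉ quots W := by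
  simp [quots]

theorem inj_of_quots [DecidableEq G] {W : Finset G} {N : Subgroup G} [N.Normal]
    (h : ∀ y ∈ quots W, y ∉ N) {x y : G} (hx : x ∈ W) (hy : y ∈ W)
    (hxy : QuotientGroup.mk' N x = QuotientGroup.mk' N y) : x = y := by
  by_contra hne
  have h1 : x⁻¹ * y ∈ N := QuotientGroup.eq.1 hxy
  refine h _ ?_ h1
  rw [quots, Finset.mem_erase]
  refine ⟨fun h2 => hne (inv_mul_eq_one.1 h2), Finset.mem_image.2 ⟨(x, y), ?_, rfl⟩⟩
  exact Finset.mem_product.2 ⟨hx, hy⟩

end Separate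

section Step1

variable {p : ℕ} [Fact p.Prime] {X : Type*} [Group X] {κ : Type*} [Fintype κ] [DecidableEq κ]

omit [Group X] in
/-- a finite set containing the support of a matrix and a given element -/
theorem exists_support' {Λ : Type*} [CommRing Λ] {κ : Type*} [Fintype κ]
    (E : Matrix κ κ (MonoidAlgebra Λ X)) (x : X) :
    ∃ W : Finset X, x ∈ W ∧ ∀ i j m, (E i j).coeff m ≠ 0 → m ∈ W := by
  classical
  refine ⟨insert x (Finset.univ.biUnion fun i => Finset.univ.biUnion fun j =>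
    (E i j).coeff.support), Finset.mem_insert_self _ _, ?_⟩
  intro i j m hm
  apply Finset.mem_insert_of_mem
  simp only [Finset.mem_biUnion, Finset.mem_univ, true_and]
  exact ⟨i, j, Finsupp.mem_support_iff.2 hm⟩

/-- The case of a virtually residually `p` group. -/
theorem eq_zero_of_vrp {m : ℕ}
    (hX : ∀ Y : Finset X, 1 ∉ Y → ∃ (Q : Subgroup X) (_ : Q.Normal), (∀ y ∈ Y, y ∉ Q) ∧
      Q.FiniteIndex ∧ ∃ a : ℕ, Q.index = m * p ^ a) {n : ℕ} (hn : 1 ≤ n)
    (hm : Fintype.card κ * m < p ^ n) (E : Matrix κ κ (MonoidAlgebra (ZMod (p ^ n)) X))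
    (hE : E * E = E) (ht : ∑ i, (E i i).coeff 1 = 0) : E = 0 := by
  classical
  obtain ⟨W, hW1, hW⟩ := exists_support' E 1
  obtain ⟨Q, hQ, hQW, hQf, a, ha⟩ := hX (quots W) (one_notMem_quots W)
  have hinj : ∀ i j (w : X), w ∈ W → ∀ x, (E i j).coeff x ≠ 0 →
      QuotientGroup.mk' Q x = QuotientGroup.mk' Q w → x = w := fun i j w hw x hx hxw =>
    inj_of_quots hQW (hW i j x hx) hw hxw
  have h0 : psh _ κ (QuotientGroup.mk' Q) E = 0 := by
    refine idem_group_eq_zero p n m a hn ?_ hm _ ?_ ?_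
    · rw [← ha]; rfl
    · rw [← map_mul, hE]
    · rw [← ht]
      refine Finset.sum_congr rfl fun i _ => ?_
      have h1 := coeff_mapDomainRingHom (QuotientGroup.mk' Q) (E i i) 1 (hinj i i 1 hW1)
      rw [map_one] at h1
      exact h1
  ext i j x
  by_cases hx : (E i j).coeff x = 0
  · rw [hx]; simp
  · rw [← coeff_mapDomainRingHom (QuotientGroup.mk' Q) (E i j) x
      (hinj i j x (hW i j x hx)), ← psh_apply, h0]
    simp

end Step1

section Ext

variable {R : Type*} [Ring R] {κ κ' : Type*} [Fintype κ] [Fintype κ'] [DecidableEq κ']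

/-- extension of a matrix by zero -/
def ext0 (j : κ → κ') (A : Matrix κ κ R) : Matrix κ' κ' R :=
  fun c d => ∑ a, ∑ b, if j a = c ∧ j b = d then A a b else 0

omit [Fintype κ'] in
theorem ext0_apply {j : κ → κ'} (hj : Function.Injective j) (A : Matrix κ κ R) (a b : κ) :
    ext0 j A (j a) (j b) = A a b := by
  classical
  rw [ext0, Finset.sum_eq_single a, Finset.sum_eq_single b]
  · simp
  · intro b' _ hb'
    rw [if_neg]
    rintro ⟨-, h⟩
    exact hb' (hj h)
  · intro h
    exact absurd (Finset.mem_univ b) h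
  · intro a' _ ha'
    refine Finset.sum_eq_zero fun b' _ => ?_
    rw [if_neg]
    rintro ⟨h, -⟩
    exact ha' (hj h)
  · intro h
    exact absurd (Finset.mem_univ a) h

omit [Fintype κ'] in
theorem ext0_left {j : κ → κ'} (A : Matrix κ κ R) {c : κ'} (hc : c ∉ Set.range j) (d : κ') :
    ext0 j A c d = 0 := by
  refine Finset.sum_eq_zero fun a _ => Finset.sum_eq_zero fun b _ => ?_
  rw [if_neg]
  rintro ⟨h, -⟩
  exact hc ⟨a, h⟩

omit [Fintype κ'] in
theorem ext0_right {j : κ → κ'} (A : Matrix κ κ R) (c : κ') {d : κ'} (hd : d ∉ Set.range j) :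
    ext0 j A c d = 0 := by
  refine Finset.sum_eq_zero fun a _ => Finset.sum_eq_zero fun b _ => ?_
  rw [if_neg]
  rintro ⟨-, h⟩
  exact hd ⟨b, h⟩

theorem ext0_mul {j : κ → κ'} (hj : Function.Injective j) (A B : Matrix κ κ R) :
    ext0 j A * ext0 j B = ext0 j (A * B) := by
  ext1 c d
  rw [Matrix.mul_apply]
  by_cases hc : c ∈ Set.range j
  · by_cases hd : d ∈ Set.range j
    · obtain ⟨a, rfl⟩ := hc
      obtain ⟨b, rfl⟩ := hd
      rw [ext0_apply hj, Matrix.mul_apply]
      refine (Fintype.sum_of_injective j hj _ _ ?_ ?_).symm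
      · intro c hc
        rw [ext0_left B hc, mul_zero]
      · intro a'
        rw [ext0_apply hj, ext0_apply hj]
    · rw [ext0_right _ _ hd]
      exact Finset.sum_eq_zero fun x _ => by rw [ext0_right B _ hd, mul_zero]
  · rw [ext0_left _ hc]
    exact Finset.sum_eq_zero fun x _ => by rw [ext0_left A hc, zero_mul]

theorem ext0_sum {j : κ → κ'} (hj : Function.Injective j) (A : Matrix κ κ R) {T : Type*}
    [AddCommMonoid T] (φ : R → T) (hφ : φ 0 = 0) : ∑ c, φ (ext0 j A c c) = ∑ a, φ (A a a) := by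
  refine (Fintype.sum_of_injective j hj _ _ ?_ ?_).symm
  · intro c hc
    rw [ext0_left A hc, hφ]
  · intro a
    rw [ext0_apply hj]

/-- the key comparison -/
theorem ext0_equiv {j : κ → κ'} (hj : Function.Injective j) (A : Matrix κ κ R)
    (P : Matrix κ' κ' R) (hA : A * A = A) (hP : P * P = P) (h1 : ∀ a b, P (j a) (j b) = A a b)
    (h2 : ∀ c b, c ∉ Set.range j → P c b = 0) :
    P * ext0 j A = ext0 j A ∧ ext0 j A * P = P := by
  constructor
  · ext1 c d
    rw [Matrix.mul_apply]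
    by_cases hc : c ∈ Set.range j
    · by_cases hd : d ∈ Set.range j
      · obtain ⟨a, rfl⟩ := hc
        obtain ⟨b, rfl⟩ := hd
        rw [ext0_apply hj]
        conv_rhs => rw [← hA, Matrix.mul_apply]
        refine (Fintype.sum_of_injective j hj _ _ ?_ ?_).symm
        · intro c hc
          rw [ext0_left A hc, mul_zero]
        · intro a'
          rw [ext0_apply hj, h1]
      · rw [ext0_right _ _ hd]
        exact Finset.sum_eq_zero fun x _ => by rw [ext0_right A _ hd, mul_zero]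
    · rw [ext0_left _ hc]
      exact Finset.sum_eq_zero fun x _ => by rw [h2 c x hc, zero_mul]
  · ext1 c d
    rw [Matrix.mul_apply]
    by_cases hc : c ∈ Set.range j
    · obtain ⟨a, rfl⟩ := hc
      conv_rhs => rw [← hP, Matrix.mul_apply]
      refine Finset.sum_congr rfl fun c' _ => ?_
      by_cases hc' : c' ∈ Set.range j
      · obtain ⟨a', rfl⟩ := hc'
        rw [ext0_apply hj, h1]
      · rw [h2 c' d hc', mul_zero, mul_zero]
    · rw [h2 c d hc]
      exact Finset.sum_eq_zero fun x _ => by rw [ext0_left A hc, zero_mul]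

end Ext

theorem red_ext0 {X : Type*} [Monoid X] {κ κ' : Type*} [Fintype κ] [DecidableEq κ] [Fintype κ']
    [DecidableEq κ'] {j : κ → κ'} (hj : Function.Injective j) {m n : ℕ} (h : m ∣ n)
    (A : Matrix κ κ (MonoidAlgebra (ZMod n) X)) :
    red X κ' h (ext0 j A) = ext0 j (red X κ h A) := by
  ext1 c d
  by_cases hc : c ∈ Set.range j
  · by_cases hd : d ∈ Set.range j
    · obtain ⟨a, rfl⟩ := hc
      obtain ⟨b, rfl⟩ := hd
      rw [ext0_apply hj]
      change mapRingHom X _ (ext0 j A (j a) (j b)) = mapRingHom X _ (A a b)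
      rw [ext0_apply hj]
    · rw [ext0_right _ _ hd]
      change mapRingHom X _ (ext0 j A c d) = 0
      rw [ext0_right _ _ hd, map_zero]
  · rw [ext0_left _ hc]
    change mapRingHom X _ (ext0 j A c d) = 0
    rw [ext0_left _ hc, map_zero]

theorem trace_compare {p : ℕ} [Fact p.Prime] {H : Type*} [Group H] {κ κ' : Type*} [Fintype κ]
    [DecidableEq κ] [Fintype κ'] [DecidableEq κ'] {j : κ → κ'} {n : ℕ} (h : p ^ 1 ∣ p ^ n)
    (hj : Function.Injective j) (R : Matrix κ κ (MonoidAlgebra (ZMod (p ^ n)) H))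
    (F : Matrix κ' κ' (MonoidAlgebra (ZMod (p ^ n)) H)) (hR : R * R = R) (hF : F * F = F)
    (h1 : ∀ a b, red H κ' h F (j a) (j b) = red H κ h R a b)
    (h2 : ∀ c b, c ∉ Set.range j → red H κ' h F c b = 0) :
    ∑ c, (F c c).coeff 1 = ∑ a, (R a a).coeff 1 := by
  obtain ⟨e1, e2⟩ := ext0_equiv hj (red H κ h R) (red H κ' h F) (by rw [← map_mul, hR])
    (by rw [← map_mul, hF]) h1 h2
  have hcomm : ∀ x y : H, x * y = 1 ↔ y * x = 1 := fun x y => mul_eq_one_comm
  have key := trace_eq_of_nilKer (red H κ' h) (fun x hx => red_nil p le_rfl h x hx)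
    (fun A : Matrix κ' κ' (MonoidAlgebra (ZMod (p ^ n)) H) =>
      ∑ c, ind (ZMod (p ^ n)) (fun g => g = 1) (A c c))
    (fun A B => ind_trace_mul_comm (ZMod (p ^ n)) (fun g : H => g = 1) hcomm A B)
    (e := F) (f := ext0 j R) hF (by rw [ext0_mul hj, hR])
    (by rw [red_ext0 hj]; exact e1) (by rw [red_ext0 hj]; exact e2)
  simp only [ind_eq_one] at key
  rw [key]
  exact ext0_sum hj R (fun z : MonoidAlgebra (ZMod (p ^ n)) H => z.coeff 1) rfl

theorem exists_over_subgroup {Λ : Type*} [CommRing Λ] {G H : Type*} [Group G] [Group H]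
    {κ : Type*} [Fintype κ] [DecidableEq κ] (f : G →* H) (X : Subgroup H) (W : Finset G)
    (hW : ∀ w ∈ W, f w ∈ X) (E : Matrix κ κ (MonoidAlgebra Λ G))
    (hE : ∀ i j m, (E i j).coeff m ≠ 0 → m ∈ W) :
    ∃ EX : Matrix κ κ (MonoidAlgebra Λ X), psh Λ κ X.subtype EX = psh Λ κ f E := by
  have h1 : ∀ i j, ∃ z : MonoidAlgebra Λ X, mapDomainRingHom Λ X.subtype z =
      mapDomainRingHom Λ f (E i j) := by
    intro i j
    refine ⟨∑ w : W, single ⟨f w.1, hW w.1 w.2⟩ ((E i j).coeff w.1), ?_⟩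
    conv_rhs => rw [eq_sum_single (E i j) W (hE i j)]
    rw [map_sum, map_sum, ← Finset.sum_coe_sort W]
    refine Finset.sum_congr rfl fun w _ => ?_
    rw [mapDomainRingHom_apply, mapDomainRingHom_apply, mapDomain_single, mapDomain_single]
    rfl
  choose z hz using h1
  refine ⟨Matrix.of z, ?_⟩
  ext1 i j
  exact hz i j

section Push

variable {p : ℕ} [Fact p.Prime] {G : Type u} [Group G] {κ : Type v} [Fintype κ] [DecidableEq κ]

/-- An idempotent matrix over a good group algebra all of whose lifts are traceless vanishes. -/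
theorem eq_zero_of_good (hG : ResLocVirtResP p G) (E : Matrix κ κ (MonoidAlgebra (ZMod (p ^ 1)) G))
    (hE : E * E = E)
    (hT : ∀ (n : ℕ) (hn : 1 ≤ n), ∃ (κ' : Type v) (_ : Fintype κ') (_ : DecidableEq κ')
      (j : κ → κ') (F : Matrix κ' κ' (MonoidAlgebra (ZMod (p ^ n)) G)), Function.Injective j ∧
      F * F = F ∧ (∀ N : Subgroup G, N.Normal →
        ∑ c, ind (ZMod (p ^ n)) (fun g => g ∈ N) (F c c) = 0) ∧
      (∀ a b, red G κ' (pow_dvd_pow p hn) F (j a) (j b) = E a b) ∧
      (∀ c b, c ∉ Set.range j → red G κ' (pow_dvd_pow p hn) F c b = 0)) : E = 0 := by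
  classical
  obtain ⟨W, -, hW⟩ := exists_support' E 1
  obtain ⟨N, hN, hNW, hNX⟩ := hG.finset (quots W) (one_notMem_quots W)
  have hinj : ∀ i j (w : G), w ∈ W → ∀ x, (E i j).coeff x ≠ 0 →
      QuotientGroup.mk' N x = QuotientGroup.mk' N w → x = w := fun i j w hw x hx hxw =>
    inj_of_quots hNW (hW i j x hx) hw hxw
  -- it suffices that the push forward vanishes
  suffices h0 : psh _ κ (QuotientGroup.mk' N) E = 0 by
    ext i j x
    by_cases hx : (E i j).coeff x = 0
    · rw [hx]; simp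
    · rw [← coeff_mapDomainRingHom (QuotientGroup.mk' N) (E i j) x
        (hinj i j x (hW i j x hx)), ← psh_apply, h0]
      simp
  -- the finitely generated subgroup
  let X : Subgroup (G ⧸ N) := Subgroup.closure ((W.image (QuotientGroup.mk' N) : Finset (G ⧸ N)) :
    Set (G ⧸ N))
  have hXfg : X.FG := ⟨_, rfl⟩
  obtain ⟨m, hm⟩ := (hNX X hXfg).uniform
  have hmemX : ∀ w ∈ W, QuotientGroup.mk' N w ∈ X := fun w hw =>
    Subgroup.subset_closure (Finset.mem_coe.2 (Finset.mem_image_of_mem _ hw))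
  -- the matrix over `X`
  obtain ⟨EX, hEX⟩ : ∃ EX : Matrix κ κ (MonoidAlgebra (ZMod (p ^ 1)) X),
      psh _ κ X.subtype EX = psh _ κ (QuotientGroup.mk' N) E := by
    exact exists_over_subgroup (QuotientGroup.mk' N) X W hmemX E hW
  have hEXi : EX * EX = EX := by
    apply psh_injective _ X.subtype X.subtype_injective
    rw [map_mul, hEX, ← map_mul, hE]
  suffices h0 : EX = 0 by rw [← hEX, h0, map_zero]
  obtain ⟨n, hn, hn2⟩ : ∃ n, 1 ≤ n ∧ Fintype.card κ * m < p ^ n := by
    refine ⟨Fintype.card κ * m + 1, by omega, ?_⟩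
    exact lt_of_lt_of_le (Nat.lt_succ_self _) (Nat.lt_pow_self (Fact.out : p.Prime).one_lt).le
  have hdvd : p ^ 1 ∣ p ^ n := pow_dvd_pow p hn
  obtain ⟨R, hR, hRE⟩ := exists_isIdempotentElem_eq_of_ker_isNilpotent (red X κ hdvd)
    (fun x hx => red_nil p le_rfl hdvd x hx) EX (red_surjective hdvd EX) hEXi
  suffices h0 : R = 0 by rw [← hRE, h0, map_zero]
  refine eq_zero_of_vrp hm hn hn2 R hR ?_
  -- comparison of traces
  obtain ⟨κ', _, _, j, F, hj, hF, hFt, hFE, hF0⟩ := hT n hn
  have hred : red (G ⧸ N) κ hdvd (psh _ κ X.subtype R) = psh _ κ (QuotientGroup.mk' N) E := by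
    rw [red_psh, hRE, hEX]
  have key := trace_compare hdvd hj (psh _ κ X.subtype R) (psh _ κ' (QuotientGroup.mk' N) F)
    (by rw [← map_mul, hR.eq]) (by rw [← map_mul, hF])
    (fun a b => by rw [hred, red_psh, psh_apply, psh_apply, hFE])
    (fun c b hc => by rw [red_psh, psh_apply, hF0 c b hc, map_zero])
  have h3 : ∑ c, (psh _ κ' (QuotientGroup.mk' N) F c c).coeff 1 = 0 := by
    rw [← hFt N hN]
    refine Finset.sum_congr rfl fun c _ => ?_
    rw [psh_apply, ← ind_eq_one, ind_mapDomain]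
    congr 2
    ext g
    exact QuotientGroup.eq_one_iff g
  rw [h3] at key
  rw [key]
  refine Finset.sum_congr rfl fun i _ => ?_
  rw [psh_apply]
  have h4 := coeff_mapDomainRingHom X.subtype (R i i) 1
    (fun x _ hx => X.subtype_injective hx)
  rw [map_one] at h4
  exact h4.symm

end Push

end Pool.Agent.H.MP_a22eb7_al
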