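import Pool.Agent.H.MP_a22eb7_al.P.Lift
import Pool.Agent.H.MP_a22eb7_al.CharZero

set_option autoImplicit false

namespace Pool.Agent.H.MP_a22eb7_al

open MonoidAlgebra

universe u v w

section Restrict

variable {k₀ k' : Type*} [Field k₀] [Field k'] [Algebra k₀ k'] {d : Type*} [Fintype d]
  [DecidableEq d] (b : Module.Basis d k₀ k') (M : Type*) [Monoid M]

theorem resScalars_comm (x : k') (y : M) :
    Commute ((((algebraMap k₀ (MonoidAlgebra k₀ M)).mapMatrix).comp
      (Algebra.leftMulMatrix b : k' →ₐ[k₀] Matrix d d k₀).toRingHom) x)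
    (((Matrix.scalar d : MonoidAlgebra k₀ M →+* Matrix d d (MonoidAlgebra k₀ M)).toMonoidHom.comp
      (MonoidAlgebra.of k₀ M)) y) := by
  have h1 : ∀ (c : k₀) (z : MonoidAlgebra k₀ M),
      Commute (algebraMap k₀ (MonoidAlgebra k₀ M) c) z := fun c z => Algebra.commutes c z
  change _ * _ = _ * _
  ext1 i j
  simp only [RingHom.coe_comp, Function.comp_apply, MonoidHom.coe_comp,
    RingHom.mapMatrix_apply]
  change (_ * Matrix.diagonal _ : Matrix d d (MonoidAlgebra k₀ M)) i j =
    (Matrix.diagonal _ * _ : Matrix d d (MonoidAlgebra k₀ M)) i j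
  rw [Matrix.mul_diagonal, Matrix.diagonal_mul, Matrix.map_apply]
  exact h1 _ _

/-- restriction of scalars for monoid algebras -/
noncomputable def resScalars : MonoidAlgebra k' M →+* Matrix d d (MonoidAlgebra k₀ M) :=
  liftNCRingHom
    (((algebraMap k₀ (MonoidAlgebra k₀ M)).mapMatrix).comp
      (Algebra.leftMulMatrix b : k' →ₐ[k₀] Matrix d d k₀).toRingHom)
    ((Matrix.scalar d : MonoidAlgebra k₀ M →+* Matrix d d (MonoidAlgebra k₀ M)).toMonoidHom.comp
      (MonoidAlgebra.of k₀ M))
    (resScalars_comm b M)

theorem coeff_resScalars (z : MonoidAlgebra k' M) (i j : d) (m : M) :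
    (resScalars b M z i j).coeff m = Algebra.leftMulMatrix b (z.coeff m) i j := by
  classical
  refine MonoidAlgebra.induction_linear z ?_ ?_ ?_
  · simp
  · intro x y hx hy
    rw [map_add, Matrix.add_apply, coeff_add, coeff_add, Finsupp.add_apply, Finsupp.add_apply,
      hx, hy, map_add, Matrix.add_apply]
  · intro x a
    have h1 : resScalars b M (single x a) i j =
        algebraMap k₀ (MonoidAlgebra k₀ M) (Algebra.leftMulMatrix b a i j) * single x 1 := by
      have h2 := congrFun (congrFun (liftNCRingHom_single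
        (((algebraMap k₀ (MonoidAlgebra k₀ M)).mapMatrix).comp
          (Algebra.leftMulMatrix b : k' →ₐ[k₀] Matrix d d k₀).toRingHom)
        ((Matrix.scalar d : MonoidAlgebra k₀ M →+* Matrix d d
          (MonoidAlgebra k₀ M)).toMonoidHom.comp (MonoidAlgebra.of k₀ M))
        (resScalars_comm b M) x a) i) j
      refine h2.trans ?_
      change (_ * Matrix.diagonal _ : Matrix d d (MonoidAlgebra k₀ M)) i j = _
      rw [Matrix.mul_diagonal]
      rfl
    rw [h1]
    rw [← Algebra.smul_def, coeff_smul_apply, coeff_single, coeff_single, Finsupp.single_apply,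
      Finsupp.single_apply, smul_eq_mul]
    split_ifs
    · rw [mul_one]
    · rw [mul_zero, map_zero, Matrix.zero_apply]

theorem resScalars_injective : Function.Injective (resScalars b M) := by
  intro x y hxy
  ext m
  apply Algebra.leftMulMatrix_injective b
  ext i j
  rw [← coeff_resScalars, hxy, coeff_resScalars]

end Restrict

section Main

variable {p : ℕ} [Fact p.Prime] {M : Type u} [Monoid M]

/-- Stable finiteness over the prime field. -/
theorem stablyFinite_zmod (hM : Tame M)
    (hG : ∀ (G : Type u) [Group G] (f : G →ₙ* M), Function.Injective f → ResLocVirtResP p G)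
    {ι : Type v} [Fintype ι] [DecidableEq ι] (A B : Matrix ι ι (MonoidAlgebra (ZMod p) M))
    (hAB : A * B = 1) : B * A = 1 := by
  let f : ZMod p →+* ZMod (p ^ 1) := (ZMod.ringEquivCongr (pow_one p).symm).toRingHom
  apply mapMatrix_injective' f (ZMod.ringEquivCongr (pow_one p).symm).injective
  rw [map_mul, map_one]
  apply stablyFinite_prime hM hG
  rw [← map_mul, hAB, map_one]

/-- Stable finiteness in characteristic `p` for tame monoids with good subgroups. -/
theorem stablyFinite_charP (hM : Tame M)
    (hG : ∀ (G : Type u) [Group G] (f : G →ₙ* M), Function.Injective f → ResLocVirtResP p G)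
    {K : Type w} [Field K] [CharP K p] {ι : Type v} [Fintype ι] [DecidableEq ι]
    (A B : Matrix ι ι (MonoidAlgebra K M)) (hAB : A * B = 1) : B * A = 1 := by
  classical
  by_contra hBA
  let _ : Algebra (ZMod p) K := ZMod.algebra K p
  obtain ⟨k', _, _, hfin, A', B', h1, h2⟩ := exists_specialization (ZMod p) A B hAB hBA
  let b := Module.finBasis (ZMod p) k'
  let Φ : Matrix ι ι (MonoidAlgebra k' M) →+*
      Matrix (ι × Fin (Module.finrank (ZMod p) k')) (ι × Fin (Module.finrank (ZMod p) k'))
        (MonoidAlgebra (ZMod p) M) :=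
    (Matrix.compRingEquiv ι (Fin (Module.finrank (ZMod p) k'))
      (MonoidAlgebra (ZMod p) M)).toRingHom.comp (resScalars b M).mapMatrix
  have hΦ : Function.Injective Φ := by
    intro X Y hXY
    have h3 : (resScalars b M).mapMatrix X = (resScalars b M).mapMatrix Y :=
      (Matrix.compRingEquiv ι (Fin (Module.finrank (ZMod p) k'))
        (MonoidAlgebra (ZMod p) M)).injective hXY
    ext1 i j
    exact resScalars_injective b M (congrFun (congrFun h3 i) j)
  apply h2
  apply hΦ
  rw [map_mul, map_one]
  apply stablyFinite_zmod hM hG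
  rw [← map_mul, h1, map_one]

end Main

end Pool.Agent.H.MP_a22eb7_al
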